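import Pool.Agent.V11276.PowBin2

/-!
# Weighted sums of powers of multinomial coefficients modulo `m n`

For all `m ≥ 1`, `n ≥ 1` and `r ≥ 0` the product `m n` divides
`∑_{k < n} (-1)^(r k) ((m + 1) k + m) M_(m,k)^(r)`, where `M_(m,k)^(r)` is the sum of the `r`-th powers
of the multinomial coefficients over all ordered `m`-tuples of nonnegative integers with sum `k`.

By symmetry `((m + 1) k + m) M_(m,k)^(r)` is `m` times the sum of
`(2 k - c + 1) binom(k, c)^r M_(m-1,c)^(r)` over `c ≤ k`, so it is enough that `n` divides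
`∑_{c ≤ k < n} (-1)^(r k) (2 k - c + 1) binom(k, c)^r` for every `c`. For this one shows (by the
Pfaff-Saalschütz identity) that the integer span of the functions `binom(k + j, j) binom(k, c + j)`
of `k` is closed under multiplication by `binom(k, c)^2`, and sums each of these functions in closed
form.
-/

set_option autoImplicit false

namespace Pool.Agent.Results.MP_cbe697_nt.AllExponents

/-- For all `m, n ≥ 1` and `r ≥ 0`, `m n` divides `∑_{k < n} (-1)^(r k) ((m + 1) k + m) M_(m,k)^(r)`. -/
theorem result (m n r : ℕ) (hm : 1 ≤ m) (_hn : 1 ≤ n) :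
    ((m * n : ℕ) : ℤ) ∣ ∑ k ∈ Finset.range n, (-1 : ℤ) ^ (r * k) * (((m : ℤ) + 1) * k + m) *
      ∑ t ∈ Finset.Nat.antidiagonalTuple m k, (Nat.multinomial Finset.univ t : ℤ) ^ r := by
  obtain ⟨m, rfl⟩ : ∃ m', m = m' + 1 := ⟨m - 1, by omega⟩
  have h := Pool.Agent.V11276.PowBin.multi_dvd m n r
  unfold Pool.Agent.V11276.PowBin.Mul at h
  push_cast at h ⊢
  exact h

end Pool.Agent.Results.MP_cbe697_nt.AllExponents
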